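import Pool.Agent.Results.MP_95d7dd_gt.CancelTwo
import Pool.Agent.Y779.RO.Growth

/-!
# Cancellation laws for the types of bounded regular open sets

The starting file `CancelTwo` shows that `2 α = 2 β` implies `α = β` for the types of bounded regular
open sets. Here: `m α = m β` implies `α = β` for every `m ≥ 1`, and `m α + γ = m β + γ` implies
`α = β` whenever `α` and `β` are types of nonempty sets, for every type `γ`. All this holds for
equidecomposability with the members of any group of isometries which contains the translations.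
On the line, and for groups of translations and point reflections, `α` and `β` may be types of empty
sets in the second law, so that the monoid of types is cancellative.
-/

set_option autoImplicit false

namespace Pool.Agent.Results.MP_95d7dd_gt.CancelAll

open CancelTwo (E BddRegOpen)

/-- Equidecomposability `A ∼ B` with finitely many pairwise disjoint bounded regular open pieces, with
joins in place of unions, under isometries which belong to the group `H`. -/
def EquidecIn {n : ℕ} (H : Subgroup (E n ≃ᵢ E n)) (A B : Set (E n)) : Prop :=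
  ∃ k : ℕ, ∃ P : Fin k → Set (E n), ∃ g : Fin k → (E n ≃ᵢ E n), (∀ i, g i ∈ H) ∧
    (∀ i, BddRegOpen (P i)) ∧
    Pairwise (fun i j => Disjoint (P i) (P j)) ∧
    Pairwise (fun i j => Disjoint (g i '' P i) (g j '' P j)) ∧
    interior (closure (⋃ i, P i)) = A ∧
    interior (closure (⋃ i, g i '' P i)) = B

/-- The set `W` represents the sum of the types of the sets `Z i`: it is the join (the interior of
the closure of the union) of pairwise disjoint images of the sets `Z i` under members of `H`. -/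
def IsSum {n k : ℕ} (H : Subgroup (E n ≃ᵢ E n)) (Z : Fin k → Set (E n)) (W : Set (E n)) : Prop :=
  ∃ u : Fin k → (E n ≃ᵢ E n), (∀ i, u i ∈ H) ∧
    Pairwise (fun i j => Disjoint (u i '' Z i) (u j '' Z j)) ∧
    interior (closure (⋃ i, u i '' Z i)) = W

/-- The group `H` contains all translations. -/
def HasTranslations {n : ℕ} (H : Subgroup (E n ≃ᵢ E n)) : Prop :=
  ∀ v : E n, IsometryEquiv.addRight v ∈ H

/-- All members of `H` are translations or point reflections. -/
def Simple {n : ℕ} (H : Subgroup (E n ≃ᵢ E n)) : Prop :=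
  ∀ g ∈ H, ∃ v : E n, (∀ x, g x = x + v) ∨ ∀ x, g x = -x + v

/-- The family `C, A, …, A` with `m` members `A`. -/
def withCopies {n : ℕ} (C : Set (E n)) (m : ℕ) (A : Set (E n)) : Fin (m + 1) → Set (E n) :=
  Fin.cons C fun _ : Fin m => A

theorem nonempty_case {n : ℕ} (hn : 1 ≤ n) {H : Subgroup (E n ≃ᵢ E n)} (hH : HasTranslations H)
    {A B C : Set (E n)} (hA : BddRegOpen A)
    (hB : BddRegOpen B) (hC : BddRegOpen C) (hAne : A.Nonempty) (hBne : B.Nonempty) {m : ℕ}
    (hm : 1 ≤ m) {U V : Set (E n)} (hU : IsSum H (withCopies C m A) U)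
    (hV : IsSum H (withCopies C m B) V) (h : EquidecIn H U V) : EquidecIn H A B := by
  obtain ⟨u, hu0, hu1, hu2⟩ := hU
  obtain ⟨v, hv0, hv1, hv2⟩ := hV
  rw [← hu2, ← hv2] at h
  exact Pool.Agent.Y779.RO.cancel' (Fin.pos_iff_nonempty.mp hn) H hH hA.1 hA.2 hB.1 hB.2 hC.1 hC.2
    hAne hBne hm hu0 hv0 hu1 hv1 h

/-- a sum without a further summand is a sum with the further summand `∅` -/
theorem sum_empty {n m : ℕ} {H : Subgroup (E n ≃ᵢ E n)} {A U : Set (E n)}
    (h : IsSum H (fun _ : Fin m => A) U) : IsSum H (withCopies ∅ m A) U := by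
  obtain ⟨u, hu0, hu1, hu2⟩ := h
  refine ⟨Fin.cons 1 u, ?_, ?_, ?_⟩
  · intro i
    rcases Fin.eq_zero_or_eq_succ i with rfl | ⟨i, rfl⟩
    · exact H.one_mem
    · exact hu0 i
  · intro i j hij
    rcases Fin.eq_zero_or_eq_succ i with rfl | ⟨i, rfl⟩
    · simp [withCopies]
    rcases Fin.eq_zero_or_eq_succ j with rfl | ⟨j, rfl⟩
    · simp [withCopies]
    have hne : i ≠ j := fun e => hij (by rw [e])
    simpa [withCopies] using hu1 hne
  · rw [← hu2]
    congr 2
    ext x
    simp [withCopies, Fin.exists_fin_succ]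

theorem open_of {n : ℕ} {A : Set (E n)} (hA : BddRegOpen A) : IsOpen A := hA.1 ▸ isOpen_interior

theorem piece_empty {n k : ℕ} {P : Fin k → Set (E n)} (hP : ∀ i, IsOpen (P i))
    (h : interior (closure (⋃ i, P i)) = ∅) (i : Fin k) : P i = ∅ := by
  have h1 : P i ⊆ interior (closure (⋃ i, P i)) :=
    (hP i).subset_interior_iff.mpr ((Set.subset_iUnion P i).trans subset_closure)
  rw [h] at h1
  exact Set.subset_empty_iff.mp h1

theorem equidec_empty_left {n : ℕ} {H : Subgroup (E n ≃ᵢ E n)} {V : Set (E n)}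
    (h : EquidecIn H ∅ V) : V = ∅ := by
  obtain ⟨k, P, g, -, hP, -, -, h1, h2⟩ := h
  have h3 := piece_empty (fun i => open_of (hP i)) h1
  rw [← h2]
  simp [h3]

theorem equidec_empty_right {n : ℕ} {H : Subgroup (E n ≃ᵢ E n)} {U : Set (E n)}
    (h : EquidecIn H U ∅) : U = ∅ := by
  obtain ⟨k, P, g, -, hP, -, -, h1, h2⟩ := h
  have h3 := piece_empty (fun i => (g i).toHomeomorph.isOpenMap _ (open_of (hP i))) h2
  have h4 : ∀ i, P i = ∅ := fun i => Set.image_eq_empty.mp (h3 i)
  rw [← h1]
  simp [h4]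

theorem equidec_empty {n : ℕ} {H : Subgroup (E n ≃ᵢ E n)} : EquidecIn H (∅ : Set (E n)) ∅ :=
  ⟨0, fun i => i.elim0, fun i => i.elim0, fun i => i.elim0, fun i => i.elim0, fun i => i.elim0,
    fun i => i.elim0, by simp, by simp⟩

theorem sum_empty_iff {n m : ℕ} {H : Subgroup (E n ≃ᵢ E n)} (hm : 1 ≤ m) {A U : Set (E n)}
    (hA : BddRegOpen A) (h : IsSum H (fun _ : Fin m => A) U) : U = ∅ ↔ A = ∅ := by
  obtain ⟨u, -, -, hu2⟩ := h
  constructor
  · intro hU
    rw [← hu2] at hU
    have h3 := piece_empty (fun i => (u i).toHomeomorph.isOpenMap _ (open_of hA)) hU ⟨0, hm⟩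
    exact Set.image_eq_empty.mp h3
  · intro hA0
    rw [← hu2, hA0]
    simp

theorem empty_reg {n : ℕ} : BddRegOpen (∅ : Set (E n)) := ⟨by simp, Bornology.isBounded_empty⟩

theorem multiples {n : ℕ} (hn : 1 ≤ n) {H : Subgroup (E n ≃ᵢ E n)} (hH : HasTranslations H)
    {A B : Set (E n)} (hA : BddRegOpen A) (hB : BddRegOpen B) {m : ℕ} (hm : 1 ≤ m)
    {U V : Set (E n)} (hU : IsSum H (fun _ : Fin m => A) U)
    (hV : IsSum H (fun _ : Fin m => B) V) (h : EquidecIn H U V) : EquidecIn H A B := by
  rcases A.eq_empty_or_nonempty with hA0 | hAne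
  · have hU0 := (sum_empty_iff hm hA hU).2 hA0
    rw [hU0] at h
    have hB0 := (sum_empty_iff hm hB hV).1 (equidec_empty_left h)
    rw [hA0, hB0]
    exact equidec_empty
  rcases B.eq_empty_or_nonempty with hB0 | hBne
  · have hV0 := (sum_empty_iff hm hB hV).2 hB0
    rw [hV0] at h
    have hA0 := (sum_empty_iff hm hA hU).1 (equidec_empty_right h)
    rw [hA0, hB0]
    exact equidec_empty
  exact nonempty_case hn hH hA hB empty_reg hAne hBne hm (sum_empty hU) (sum_empty hV) h

theorem equidec_symm {n : ℕ} {H : Subgroup (E n ≃ᵢ E n)} {A B : Set (E n)}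
    (h : EquidecIn H A B) : EquidecIn H B A := by
  obtain ⟨k, P, g, h0, h1, h2, h3, h4, h5⟩ := h
  have hinv : ∀ i, ((g i)⁻¹ : E n ≃ᵢ E n) '' (g i '' P i) = P i := by
    intro i
    rw [Set.image_image]
    have : ∀ x, ((g i)⁻¹ : E n ≃ᵢ E n) (g i x) = x := fun x => (g i).symm_apply_apply x
    simp only [this, Set.image_id']
  refine ⟨k, fun i => g i '' P i, fun i => (g i)⁻¹, fun i => H.inv_mem (h0 i), ?_, h3, ?_, h5, ?_⟩
  · intro i
    refine ⟨?_, (g i).isometry.lipschitz.isBounded_image (h1 i).2⟩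
    have e1 : g i '' closure (P i) = closure (g i '' P i) := (g i).toHomeomorph.image_closure (P i)
    have e2 : g i '' interior (closure (P i)) = interior (g i '' closure (P i)) :=
      (g i).toHomeomorph.image_interior (closure (P i))
    rw [← e1, ← e2, (h1 i).1]
  · intro i j hij
    show Disjoint (((g i)⁻¹ : E n ≃ᵢ E n) '' (g i '' P i)) (((g j)⁻¹ : E n ≃ᵢ E n) '' (g j '' P j))
    rw [hinv, hinv]
    exact h2 hij
  · show interior (closure (⋃ i, ((g i)⁻¹ : E n ≃ᵢ E n) '' (g i '' P i))) = A
    rw [show (⋃ i, ((g i)⁻¹ : E n ≃ᵢ E n) '' (g i '' P i)) = ⋃ i, P i from Set.iUnion_congr hinv]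
    exact h4

theorem slow_of {n : ℕ} {H : Subgroup (E n ≃ᵢ E n)} (h : n = 1 ∨ Simple H) :
    Pool.Agent.Y779.RO.Slow H := by
  rcases h with rfl | h
  · exact Pool.Agent.Y779.RO.slow_pm fun g _ => Pool.Agent.Y779.RO.pm_one g
  · refine Pool.Agent.Y779.RO.slow_pm fun g hg => ?_
    obtain ⟨v, h1 | h1⟩ := h g hg
    · exact ⟨true, v, fun x => by rw [h1]; simp [Pool.Agent.Y779.RO.sg]⟩
    · exact ⟨false, v, fun x => by rw [h1]; simp [Pool.Agent.Y779.RO.sg]⟩

theorem no_absorption {n : ℕ} (hn : 1 ≤ n) {H : Subgroup (E n ≃ᵢ E n)} (hH : HasTranslations H)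
    (hs : Pool.Agent.Y779.RO.Slow H) {B C : Set (E n)} (hB : BddRegOpen B) (hC : BddRegOpen C)
    (hBne : B.Nonempty) {m : ℕ} (hm : 1 ≤ m) {U V : Set (E n)} (hU : IsSum H (withCopies C m ∅) U)
    (hV : IsSum H (withCopies C m B) V) (h : EquidecIn H U V) : False := by
  obtain ⟨u, hu0, hu1, hu2⟩ := hU
  obtain ⟨v, hv0, hv1, hv2⟩ := hV
  rcases C.eq_empty_or_nonempty with hC0 | hCne
  · have hU0 : U = ∅ := by
      rw [← hu2, hC0]
      have : ∀ i, u i '' withCopies ∅ m ∅ i = ∅ := by
        intro i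
        rcases Fin.eq_zero_or_eq_succ i with rfl | ⟨i, rfl⟩ <;> simp [withCopies]
      simp [this]
    rw [hU0] at h
    have hV0 := equidec_empty_left h
    rw [hV0] at hv2
    have h3 := piece_empty (P := fun i => v i '' withCopies C m B i) (fun i => by
      refine (v i).toHomeomorph.isOpenMap _ ?_
      rcases Fin.eq_zero_or_eq_succ i with rfl | ⟨i, rfl⟩
      · exact open_of hC
      · exact open_of hB) hv2 (Fin.succ ⟨0, hm⟩)
    have h4 : withCopies C m B (Fin.succ ⟨0, hm⟩) = ∅ := Set.image_eq_empty.mp h3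
    have h5 : withCopies C m B (Fin.succ ⟨0, hm⟩) = B := rfl
    rw [h5] at h4
    exact hBne.ne_empty h4
  · rw [← hu2, ← hv2] at h
    exact Pool.Agent.Y779.RO.no_absorb (Fin.pos_iff_nonempty.mp hn) H hH hs rfl
      (by simp) Bornology.isBounded_empty hB.1 hB.2 hC.1 hC.2 hBne hCne hm hu0 hv0 hu1 hv1 h

theorem summand {n : ℕ} (hn : 1 ≤ n) {H : Subgroup (E n ≃ᵢ E n)} (hH : HasTranslations H)
    {A B C : Set (E n)} (hA : BddRegOpen A) (hB : BddRegOpen B) (hC : BddRegOpen C)
    (hne : (A.Nonempty ∧ B.Nonempty) ∨ n = 1 ∨ Simple H) {m : ℕ}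
    (hm : 1 ≤ m) {U V : Set (E n)} (hU : IsSum H (withCopies C m A) U)
    (hV : IsSum H (withCopies C m B) V) (h : EquidecIn H U V) : EquidecIn H A B := by
  rcases hne with hne | hs
  · exact nonempty_case hn hH hA hB hC hne.1 hne.2 hm hU hV h
  · rcases A.eq_empty_or_nonempty with hA0 | hAne
    · rcases B.eq_empty_or_nonempty with hB0 | hBne
      · rw [hA0, hB0]
        exact equidec_empty
      · rw [hA0] at hU
        exact (no_absorption hn hH (slow_of hs) hB hC hBne hm hU hV h).elim
    · rcases B.eq_empty_or_nonempty with hB0 | hBne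
      · rw [hB0] at hV
        exact (no_absorption hn hH (slow_of hs) hA hC hAne hm hV hU (equidec_symm h)).elim
      · exact nonempty_case hn hH hA hB hC hAne hBne hm hU hV h

/-- **Cancellation laws for the types of bounded regular open sets.** Let `n ≥ 1`, let `H` be a group
of isometries of `ℝ^n` which contains all translations (for instance the group of all isometries),
and let `[A]` be the type of `A` for equidecomposability with members of `H`. Let `A` and `B` be
bounded regular open sets of `ℝ^n` and let `m ≥ 1`.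

(1) If `m [A] = m [B]` then `[A] = [B]` (for `m = 2` and all isometries this is Q1).
(2) If `m [A] + [C] = m [B] + [C]` for some bounded regular open set `C`, then `[A] = [B]`, provided
that `A` and `B` are not empty, or that `n = 1`, or that `H` consists of translations and point
reflections.

The sums of types are represented by arbitrary joins of pairwise disjoint copies. -/
theorem result : ∀ n : ℕ, 1 ≤ n → ∀ H : Subgroup (E n ≃ᵢ E n), HasTranslations H →
    ∀ A B : Set (E n), BddRegOpen A → BddRegOpen B → ∀ m : ℕ, 1 ≤ m →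
      (∀ U V : Set (E n), IsSum H (fun _ : Fin m => A) U → IsSum H (fun _ : Fin m => B) V →
        EquidecIn H U V → EquidecIn H A B) ∧
      ((A.Nonempty ∧ B.Nonempty) ∨ n = 1 ∨ Simple H → ∀ C : Set (E n), BddRegOpen C →
        ∀ U V : Set (E n), IsSum H (withCopies C m A) U → IsSum H (withCopies C m B) V →
        EquidecIn H U V → EquidecIn H A B) :=
  fun _ hn _ hH _ _ hA hB _ hm => ⟨fun _ _ hU hV h => multiples hn hH hA hB hm hU hV h,
    fun hne _ hC _ _ hU hV h => summand hn hH hA hB hC hne hm hU hV h⟩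

end Pool.Agent.Results.MP_95d7dd_gt.CancelAll
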